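import Pool.Agent.W770.PC.CutStms

set_option autoImplicit false

open MeasureTheory Set Filter Topology
open scoped ENNReal NNReal ContDiff

namespace Pool.Agent.W240.PC

open Pool.Agent.W770.PC

lemma norm_ee (x : ℝ) : ‖ee x‖ = 1 := by
  unfold ee
  exact Complex.norm_exp_ofReal_mul_I x

lemma ee_add (x y : ℝ) : ee (x + y) = ee x * ee y := by
  unfold ee
  rw [← Complex.exp_add]
  congr 1
  push_cast
  ring

lemma ee_cont : Continuous ee := by
  unfold ee
  fun_prop

lemma ee_sub (t : ℝ) : ‖ee t - 1‖ ≤ |t| := by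
  unfold ee
  have := Real.norm_exp_I_mul_ofReal_sub_one_le (x := t)
  rwa [mul_comm, Real.norm_eq_abs] at this

/-- the bump -/
noncomputable def bu (n : ℕ) : ContDiffBump (0 : ℝ) where
  rIn := 1 / (2 * (n + 1))
  rOut := 1 / (n + 1)
  rIn_pos := by positivity
  rIn_lt_rOut := by
    apply one_div_lt_one_div_of_lt (by positivity)
    have : (0 : ℝ) ≤ n := by positivity
    linarith

/-- the normalised bump -/
noncomputable def rh (n : ℕ) : ℝ → ℝ := (bu n).normed volume

lemma rh_cd (n : ℕ) : ContDiff ℝ ∞ (rh n) := (bu n).contDiff_normed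

lemma rh_cont (n : ℕ) : Continuous (rh n) := (bu n).continuous_normed

lemma rh_nn (n : ℕ) (x : ℝ) : 0 ≤ rh n x := (bu n).nonneg_normed x

lemma rh_int (n : ℕ) : ∫ x, rh n x = 1 := (bu n).integral_normed

lemma rh_cs (n : ℕ) : HasCompactSupport (rh n) := (bu n).hasCompactSupport_normed

lemma rh_integrable (n : ℕ) : Integrable (rh n) := (bu n).integrable_normed

lemma rh_zero (n : ℕ) {x : ℝ} (h : 1 / ((n : ℝ) + 1) ≤ |x|) : rh n x = 0 := by
  have h1 := (bu n).support_normed_eq (μ := volume)
  by_contra hne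
  have h2 : x ∈ Function.support ((bu n).normed volume) := hne
  rw [h1, Metric.mem_ball, Real.dist_eq, sub_zero] at h2
  exact absurd h2 (not_lt.2 h)

/-- the Fourier transform of the bump -/
noncomputable def ft (n : ℕ) (x : ℝ) : ℂ := ∫ u, (rh n u : ℂ) * ee (x * u)

lemma ft_norm (n : ℕ) (x : ℝ) : ‖ft n x‖ ≤ 1 := by
  unfold ft
  refine (norm_integral_le_integral_norm _).trans ?_
  rw [← rh_int n]
  apply le_of_eq
  congr 1
  funext u
  rw [norm_mul, norm_ee, mul_one, Complex.norm_real, Real.norm_eq_abs, abs_of_nonneg (rh_nn n u)]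

lemma ft_integrable (n : ℕ) (x : ℝ) : Integrable (fun u => (rh n u : ℂ) * ee (x * u)) := by
  refine (rh_integrable n).ofReal.mul_bdd (c := 1) ?_ ?_
  · exact (ee_cont.comp (continuous_const.mul continuous_id)).aestronglyMeasurable
  · exact Eventually.of_forall fun u => (norm_ee _).le

lemma ft_tendsto (x : ℝ) : Tendsto (fun n => ft n x) atTop (𝓝 1) := by
  rw [tendsto_iff_norm_sub_tendsto_zero]
  have h0 : Tendsto (fun n : ℕ => |x| * (1 / ((n : ℝ) + 1))) atTop (𝓝 0) := by
    have := tendsto_one_div_add_atTop_nhds_zero_nat (𝕜 := ℝ)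
    simpa using this.const_mul |x|
  refine squeeze_zero (fun _ => norm_nonneg _) (fun n => ?_) h0
  have h1 : (1 : ℂ) = ∫ u, (rh n u : ℂ) := by
    rw [integral_complex_ofReal, rh_int]
    simp
  have hi : Integrable (fun u => (rh n u : ℂ)) := (rh_integrable n).ofReal
  have h2 : ft n x - 1 = ∫ u, ((rh n u : ℂ) * ee (x * u) - (rh n u : ℂ)) := by
    rw [integral_sub (ft_integrable n x) hi, ← h1]
    rfl
  rw [h2]
  refine (norm_integral_le_integral_norm _).trans ?_
  have h3 : |x| * (1 / ((n : ℝ) + 1)) = ∫ u, rh n u * (|x| * (1 / ((n : ℝ) + 1))) := by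
    rw [integral_mul_const, rh_int, one_mul]
  rw [h3]
  apply integral_mono_of_nonneg
  · exact Eventually.of_forall fun u => norm_nonneg _
  · exact (rh_integrable n).mul_const _
  · refine Eventually.of_forall fun u => ?_
    show ‖(rh n u : ℂ) * ee (x * u) - (rh n u : ℂ)‖ ≤ rh n u * (|x| * (1 / ((n : ℝ) + 1)))
    rw [show (rh n u : ℂ) * ee (x * u) - (rh n u : ℂ) = (rh n u : ℂ) * (ee (x * u) - 1) by ring,
      norm_mul, Complex.norm_real, Real.norm_eq_abs, abs_of_nonneg (rh_nn n u)]
    by_cases hu : 1 / ((n : ℝ) + 1) ≤ |u|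
    · rw [rh_zero n hu]
      simp
    · push Not at hu
      apply mul_le_mul_of_nonneg_left _ (rh_nn n u)
      refine (ee_sub _).trans ?_
      rw [abs_mul]
      exact mul_le_mul_of_nonneg_left hu.le (abs_nonneg x)

section

variable {α : Type} [MeasurableSpace α] (ν : Measure α) [IsFiniteMeasure ν] (s : α → ℝ)
  (G : α → ℂ)

/-- smoothing -/
noncomputable def Phi (ψ : ℝ → ℝ) (r : ℝ) : ℂ := ∫ a, (ψ (r - s a) : ℂ) * G a ∂ν

variable {s G}

lemma meas_aux (hs : Measurable s) (hG : Measurable G) {ψ : ℝ → ℝ} (hψ : Continuous ψ) (r : ℝ) :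
    AEStronglyMeasurable (fun a => (ψ (r - s a) : ℂ) * G a) ν := by
  apply Measurable.aestronglyMeasurable
  exact (Complex.measurable_ofReal.comp (hψ.measurable.comp (measurable_const.sub hs))).mul hG

lemma bd_int {M : ℝ} (hs : Measurable s) (hG : Measurable G) (hGM : ∀ a, ‖G a‖ ≤ M)
    {ψ : ℝ → ℝ} (hψ : Continuous ψ) {B : ℝ} (hB : ∀ x, ‖ψ x‖ ≤ B) (r : ℝ) :
    Integrable (fun a => (ψ (r - s a) : ℂ) * G a) ν := by
  refine Integrable.mono' (integrable_const (B * M)) (meas_aux ν hs hG hψ r)
    (Eventually.of_forall fun a => ?_)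
  rw [norm_mul, Complex.norm_real]
  have hB0 : 0 ≤ B := (norm_nonneg _).trans (hB 0)
  exact mul_le_mul (hB _) (hGM a) (norm_nonneg _) hB0

lemma Phi_deriv {M : ℝ} (hs : Measurable s) (hG : Measurable G) (hGM : ∀ a, ‖G a‖ ≤ M)
    {ψ : ℝ → ℝ} (hψ : ContDiff ℝ ∞ ψ) (hc : HasCompactSupport ψ) (r : ℝ) :
    HasDerivAt (Phi ν s G ψ) (Phi ν s G (deriv ψ) r) r := by
  obtain ⟨B, hB⟩ := hc.exists_bound_of_continuous hψ.continuous
  have hd : Continuous (deriv ψ) := hψ.continuous_deriv (by simp)
  obtain ⟨B', hB'⟩ := hc.deriv.exists_bound_of_continuous hd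
  have hB0 : 0 ≤ B' := (norm_nonneg _).trans (hB' 0)
  have key := hasDerivAt_integral_of_dominated_loc_of_deriv_le (μ := ν) (𝕜 := ℝ)
    (F := fun (r : ℝ) (a : α) => (ψ (r - s a) : ℂ) * G a)
    (F' := fun (r : ℝ) (a : α) => ((deriv ψ (r - s a) : ℝ) : ℂ) * G a) (x₀ := r)
    (s := univ) (bound := fun _ => B' * M) univ_mem
    (Eventually.of_forall fun x => meas_aux ν hs hG hψ.continuous x)
    (bd_int ν hs hG hGM hψ.continuous hB r) (meas_aux ν hs hG hd r)
    (Eventually.of_forall fun a x _ => by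
      rw [norm_mul, Complex.norm_real]
      exact mul_le_mul (hB' _) (hGM a) (norm_nonneg _) hB0)
    (integrable_const _)
    (Eventually.of_forall fun a x _ => by
      have h1 : HasDerivAt ψ (deriv ψ (x - s a)) (x - s a) :=
        (hψ.differentiable (by simp)).differentiableAt.hasDerivAt
      have h2 : HasDerivAt (fun y : ℝ => ψ (y - s a)) (deriv ψ (x - s a)) x :=
        HasDerivAt.comp_sub_const x (s a) h1
      exact h2.ofReal_comp.mul_const (G a))
  exact key.2

lemma Phi_cd {M : ℝ} (hs : Measurable s) (hG : Measurable G) (hGM : ∀ a, ‖G a‖ ≤ M) (n : ℕ) :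
    ∀ ψ : ℝ → ℝ, ContDiff ℝ ∞ ψ → HasCompactSupport ψ → ContDiff ℝ n (Phi ν s G ψ) := by
  induction n with
  | zero =>
    intro ψ hψ hc
    rw [Nat.cast_zero, contDiff_zero]
    exact continuous_iff_continuousAt.2 fun r => (Phi_deriv ν hs hG hGM hψ hc r).continuousAt
  | succ n ih =>
    intro ψ hψ hc
    rw [Nat.cast_succ, contDiff_succ_iff_deriv]
    refine ⟨fun r => (Phi_deriv ν hs hG hGM hψ hc r).differentiableAt, fun h => ?_, ?_⟩
    · exact absurd h (by simp)
    · have : deriv (Phi ν s G ψ) = Phi ν s G (deriv ψ) := by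
        funext r
        exact (Phi_deriv ν hs hG hGM hψ hc r).deriv
      rw [this]
      exact ih _ ((contDiff_infty_iff_deriv.1 hψ).2) hc.deriv

lemma Phi_smooth {M : ℝ} (hs : Measurable s) (hG : Measurable G) (hGM : ∀ a, ‖G a‖ ≤ M) (n : ℕ) :
    ContDiff ℝ ∞ (Phi ν s G (rh n)) := by
  rw [contDiff_infty]
  intro m
  exact Phi_cd ν hs hG hGM m _ (rh_cd n) (rh_cs n)

lemma Phi_cs {M : ℝ} (hsM : ∀ a, |s a| ≤ M) (n : ℕ) : HasCompactSupport (Phi ν s G (rh n)) := by
  apply HasCompactSupport.intro (isCompact_Icc (a := -(M + 1)) (b := M + 1))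
  intro r hr
  unfold Phi
  have : ∀ a, (rh n (r - s a) : ℂ) * G a = 0 := by
    intro a
    have h1 : 1 / ((n : ℝ) + 1) ≤ |r - s a| := by
      have h2 : 1 / ((n : ℝ) + 1) ≤ 1 := by
        rw [div_le_one (by positivity)]
        have : (0 : ℝ) ≤ n := by positivity
        linarith
      have h3 : M + 1 ≤ |r| := by
        by_contra hlt
        push Not at hlt
        exact hr (mem_Icc.2 ⟨(abs_lt.1 hlt).1.le, (abs_lt.1 hlt).2.le⟩)
      have h4 := abs_sub_abs_le_abs_sub r (s a)
      have := hsM a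
      linarith
    rw [rh_zero n h1]
    simp
  simp [this]

/-- the integrand of the double integral -/
lemma dbl {M : ℝ} (hs : Measurable s) (hG : Measurable G) (hsM : ∀ a, |s a| ≤ M)
    (hGM : ∀ a, ‖G a‖ ≤ M) (n : ℕ) (x : ℝ) :
    Integrable (fun z : ℝ × α => (rh n (z.1 - s z.2) : ℂ) * G z.2 * ee (x * z.1))
      (volume.prod ν) := by
  obtain ⟨B, hB⟩ := (rh_cs n).exists_bound_of_continuous (rh_cont n)
  have hB0 : 0 ≤ B := (norm_nonneg _).trans (hB 0)
  have h1 : Integrable (fun z : ℝ × α => (Icc (-(M + 1)) (M + 1)).indicator (fun _ => B) z.1 *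
      (fun _ : α => M) z.2) (volume.prod ν) := by
    refine Integrable.mul_prod (f := (Icc (-(M + 1)) (M + 1)).indicator (fun _ => B))
      (g := fun _ : α => M) ?_ ?_
    · rw [integrable_indicator_iff measurableSet_Icc]
      exact (continuous_const.integrableOn_Icc)
    · exact integrable_const _
  refine Integrable.mono' h1 ?_ (Eventually.of_forall fun z => ?_)
  · apply Measurable.aestronglyMeasurable
    refine ((Complex.measurable_ofReal.comp ((rh_cont n).measurable.comp
      (measurable_fst.sub (hs.comp measurable_snd)))).mul (hG.comp measurable_snd)).mul ?_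
    exact ee_cont.measurable.comp (measurable_const.mul measurable_fst)
  · rw [norm_mul, norm_mul, norm_ee, mul_one, Complex.norm_real]
    by_cases hz : z.1 ∈ Icc (-(M + 1)) (M + 1)
    · rw [indicator_of_mem hz]
      exact mul_le_mul (hB _) (hGM _) (norm_nonneg _) hB0
    · rw [indicator_of_notMem hz, zero_mul]
      have h2 : 1 / ((n : ℝ) + 1) ≤ |z.1 - s z.2| := by
        have h2 : 1 / ((n : ℝ) + 1) ≤ 1 := by
          rw [div_le_one (by positivity)]
          have : (0 : ℝ) ≤ n := by positivity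
          linarith
        have h3 : M + 1 ≤ |z.1| := by
          by_contra hlt
          push Not at hlt
          exact hz (mem_Icc.2 ⟨(abs_lt.1 hlt).1.le, (abs_lt.1 hlt).2.le⟩)
        have h4 := abs_sub_abs_le_abs_sub z.1 (s z.2)
        have := hsM z.2
        linarith
      rw [rh_zero n h2]
      simp

lemma inner_full (n : ℕ) (x t : ℝ) :
    ∫ r, (rh n (r - t) : ℂ) * ee (x * r) = ee (x * t) * ft n x := by
  have h1 := integral_sub_right_eq_self (μ := volume)
    (fun u : ℝ => (rh n u : ℂ) * ee (x * (u + t))) t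
  have h2 : (fun r : ℝ => (rh n (r - t) : ℂ) * ee (x * (r - t + t)))
      = fun r => (rh n (r - t) : ℂ) * ee (x * r) := by
    funext r
    rw [sub_add_cancel]
  rw [h2] at h1
  rw [h1]
  unfold ft
  rw [← integral_const_mul]
  congr 1
  funext u
  rw [mul_add, ee_add]
  ring

/-- the bracket -/
noncomputable def brk (n : ℕ) (x c t : ℝ) : ℂ := ∫ r in Ici c, (rh n (r - t) : ℂ) * ee (x * r)

lemma brk_norm (n : ℕ) (x c t : ℝ) : ‖brk n x c t‖ ≤ 1 := by
  unfold brk
  refine (norm_integral_le_integral_norm _).trans ?_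
  have h0 : ∀ r : ℝ, ‖(rh n (r - t) : ℂ) * ee (x * r)‖ = rh n (r - t) := by
    intro r
    rw [norm_mul, norm_ee, mul_one, Complex.norm_real, Real.norm_eq_abs, abs_of_nonneg (rh_nn n _)]
  simp only [h0]
  have h1 : ∫ r, rh n (r - t) = 1 := by
    rw [integral_sub_right_eq_self (μ := volume) (rh n) t, rh_int]
  rw [← h1]
  exact setIntegral_le_integral ((rh_integrable n).comp_sub_right t)
    (Eventually.of_forall fun r => rh_nn n _)

lemma brk_tendsto {x c t : ℝ} (h : t ≠ c) :
    Tendsto (fun n => brk n x c t) atTop (𝓝 (if c ≤ t then ee (x * t) else 0)) := by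
  have hpos : 0 < |t - c| := abs_pos.2 (sub_ne_zero.2 h)
  obtain ⟨N, hN⟩ := exists_nat_one_div_lt hpos
  have hev : ∀ n, N ≤ n → 1 / ((n : ℝ) + 1) < |t - c| := by
    intro n hn
    refine lt_of_le_of_lt ?_ hN
    apply one_div_le_one_div_of_le (by positivity)
    have : (N : ℝ) ≤ n := by exact_mod_cast hn
    linarith
  by_cases hct : c ≤ t
  · rw [if_pos hct]
    have hct' : c < t := lt_of_le_of_ne hct (Ne.symm h)
    have h1 : Tendsto (fun n => ee (x * t) * ft n x) atTop (𝓝 (ee (x * t))) := by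
      simpa using (ft_tendsto x).const_mul (ee (x * t))
    refine h1.congr' ?_
    filter_upwards [eventually_ge_atTop N] with n hn
    rw [← inner_full n x t]
    unfold brk
    symm
    apply setIntegral_eq_integral_of_forall_compl_eq_zero
    intro r hr
    rw [mem_Ici, not_le] at hr
    have h2 : 1 / ((n : ℝ) + 1) ≤ |r - t| := by
      have := hev n hn
      rw [abs_of_pos (sub_pos.2 hct')] at this
      rw [abs_of_neg (by linarith)]
      linarith
    rw [rh_zero n h2]
    simp
  · rw [if_neg hct]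
    push Not at hct
    refine tendsto_const_nhds.congr' ?_
    filter_upwards [eventually_ge_atTop N] with n hn
    unfold brk
    symm
    apply setIntegral_eq_zero_of_forall_eq_zero
    intro r hr
    rw [mem_Ici] at hr
    have h2 : 1 / ((n : ℝ) + 1) ≤ |r - t| := by
      have := hev n hn
      rw [abs_of_neg (sub_neg.2 hct)] at this
      rw [abs_of_pos (by linarith)]
      linarith
    rw [rh_zero n h2]
    simp

lemma full_id {M : ℝ} (hs : Measurable s) (hG : Measurable G) (hsM : ∀ a, |s a| ≤ M)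
    (hGM : ∀ a, ‖G a‖ ≤ M) (n : ℕ) (x : ℝ) :
    ∫ r, Phi ν s G (rh n) r * ee (x * r) = ft n x * ∫ a, G a * ee (x * s a) ∂ν := by
  have h1 : ∀ r, Phi ν s G (rh n) r * ee (x * r)
      = ∫ a, (rh n (r - s a) : ℂ) * G a * ee (x * r) ∂ν := by
    intro r
    unfold Phi
    rw [integral_mul_const]
  simp only [h1]
  rw [integral_integral_swap (dbl ν hs hG hsM hGM n x), ← integral_const_mul]
  congr 1
  funext a
  have h2 : (fun r : ℝ => (rh n (r - s a) : ℂ) * G a * ee (x * r))
      = fun r => G a * ((rh n (r - s a) : ℂ) * ee (x * r)) := by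
    funext r
    ring
  rw [h2, integral_const_mul, inner_full]
  ring

lemma half_id {M : ℝ} (hs : Measurable s) (hG : Measurable G) (hsM : ∀ a, |s a| ≤ M)
    (hGM : ∀ a, ‖G a‖ ≤ M) (n : ℕ) (x c : ℝ) :
    ∫ r in Ici c, Phi ν s G (rh n) r * ee (x * r) = ∫ a, G a * brk n x c (s a) ∂ν := by
  have h1 : ∀ r, Phi ν s G (rh n) r * ee (x * r)
      = ∫ a, (rh n (r - s a) : ℂ) * G a * ee (x * r) ∂ν := by
    intro r
    unfold Phi
    rw [integral_mul_const]
  simp only [h1]
  have hd : Integrable (fun z : ℝ × α => (rh n (z.1 - s z.2) : ℂ) * G z.2 * ee (x * z.1))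
      ((volume.restrict (Ici c)).prod ν) := by
    have h3 := dbl ν hs hG hsM hGM n x
    have h4 : (volume.restrict (Ici c)).prod ν = ((volume : Measure ℝ).prod ν).restrict
        (Ici c ×ˢ univ) := by
      rw [← Measure.prod_restrict, Measure.restrict_univ]
    rw [h4]
    exact h3.restrict
  rw [integral_integral_swap hd]
  congr 1
  funext a
  unfold brk
  rw [← integral_const_mul]
  congr 1
  funext r
  ring

end

theorem rieszA_thm (h1 : S_riesz) : S_rieszA := by
  intro p hp
  obtain ⟨C, hC0, hC⟩ := h1 p hp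
  refine ⟨C, hC0, ?_⟩
  intro α _ ν hν s G M hs hG hsM hGM c hc
  have hp0 : 0 ≤ p := by linarith
  have hM0 : 0 ≤ M ∨ IsEmpty α := by
    rcases isEmpty_or_nonempty α with h | ⟨⟨a⟩⟩
    · exact Or.inr h
    · exact Or.inl ((norm_nonneg _).trans (hGM a))
  -- pointwise convergence
  have hlim : ∀ x : ℝ, Tendsto (fun n => ∫ r in Ici c, Phi ν s G (rh n) r * ee (x * r)) atTop
      (𝓝 (∫ a in {a | c ≤ s a}, G a * ee (x * s a) ∂ν)) := by
    intro x
    simp only [half_id ν hs hG hsM hGM]
    have hm : MeasurableSet {a | c ≤ s a} := measurableSet_le measurable_const hs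
    rw [← integral_indicator hm]
    refine tendsto_integral_of_dominated_convergence (fun _ => M) ?_ (integrable_const _) ?_ ?_
    · intro n
      apply Measurable.aestronglyMeasurable
      apply hG.mul
      have h2 : StronglyMeasurable (fun t : ℝ => brk n x c t) := by
        unfold brk
        apply StronglyMeasurable.integral_prod_right
          (f := fun t r : ℝ => (rh n (r - t) : ℂ) * ee (x * r))
        apply Continuous.stronglyMeasurable
        exact (Complex.continuous_ofReal.comp ((rh_cont n).comp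
          (continuous_snd.sub continuous_fst))).mul
          (ee_cont.comp (continuous_const.mul continuous_snd))
      exact h2.measurable.comp hs
    · intro n
      refine Eventually.of_forall fun a => ?_
      rw [norm_mul]
      calc ‖G a‖ * ‖brk n x c (s a)‖ ≤ M * 1 :=
            mul_le_mul (hGM a) (brk_norm _ _ _ _) (norm_nonneg _)
              ((norm_nonneg _).trans (hGM a))
        _ = M := mul_one M
    · have hae : ∀ᵐ a ∂ν, s a ≠ c := by
        rw [ae_iff]
        simpa using hc
      filter_upwards [hae] with a ha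
      have h3 := (brk_tendsto (x := x) ha).const_mul (G a)
      have e : {a | c ≤ s a}.indicator (fun a => G a * ee (x * s a)) a
          = G a * (if c ≤ s a then ee (x * s a) else 0) := by
        rw [Set.indicator_apply]
        by_cases hca : c ≤ s a
        · rw [if_pos (show a ∈ {a | c ≤ s a} from hca), if_pos hca]
        · rw [if_neg (show a ∉ {a | c ≤ s a} from hca), if_neg hca, mul_zero]
      rw [e]
      exact h3
  -- Fatou
  have hcont : ∀ n, Continuous (fun x : ℝ => ∫ r in Ici c, Phi ν s G (rh n) r * ee (x * r)) := by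
    intro n
    have hcP : Continuous (Phi ν s G (rh n)) := (Phi_smooth ν hs hG hGM n).continuous
    have hint : Integrable (Phi ν s G (rh n)) := hcP.integrable_of_hasCompactSupport
      (Phi_cs ν hsM n)
    refine continuous_of_dominated (bound := fun r => ‖Phi ν s G (rh n) r‖) ?_ ?_ ?_ ?_
    · intro x
      exact (hcP.mul (ee_cont.comp (continuous_const.mul continuous_id))).aestronglyMeasurable
    · intro x
      refine Eventually.of_forall fun r => ?_
      rw [norm_mul, norm_ee, mul_one]
    · exact hint.norm.restrict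
    · refine Eventually.of_forall fun r => ?_
      exact continuous_const.mul (ee_cont.comp (continuous_id.mul continuous_const))
  calc ∫⁻ x : ℝ, ‖∫ a in {a | c ≤ s a}, G a * ee (x * s a) ∂ν‖ₑ ^ p
      = ∫⁻ x : ℝ, liminf (fun n => ‖∫ r in Ici c, Phi ν s G (rh n) r * ee (x * r)‖ₑ ^ p)
          atTop := by
        congr 1
        funext x
        have h4 : Tendsto (fun n => ‖∫ r in Ici c, Phi ν s G (rh n) r * ee (x * r)‖ₑ ^ p) atTop
            (𝓝 (‖∫ a in {a | c ≤ s a}, G a * ee (x * s a) ∂ν‖ₑ ^ p)) :=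
          ((ENNReal.continuous_rpow_const (y := p)).tendsto _).comp (hlim x).enorm
        exact h4.liminf_eq.symm
    _ ≤ liminf (fun n => ∫⁻ x : ℝ, ‖∫ r in Ici c, Phi ν s G (rh n) r * ee (x * r)‖ₑ ^ p)
          atTop := by
        apply lintegral_liminf_le
        intro n
        exact ((hcont n).enorm.measurable).pow_const p
    _ ≤ ENNReal.ofReal C * ∫⁻ x : ℝ, ‖∫ a, G a * ee (x * s a) ∂ν‖ₑ ^ p := by
        refine liminf_le_of_le (by isBoundedDefault) ?_
        intro b hb
        obtain ⟨n, hn⟩ := hb.exists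
        refine hn.trans ?_
        refine (hC _ (Phi_smooth ν hs hG hGM n) (Phi_cs ν hsM n) c).trans ?_
        gcongr with x
        rw [full_id ν hs hG hsM hGM, enorm_mul]
        calc ‖ft n x‖ₑ * ‖∫ a, G a * ee (x * s a) ∂ν‖ₑ
            ≤ 1 * ‖∫ a, G a * ee (x * s a) ∂ν‖ₑ := by
              gcongr
              have := ft_norm n x
              rw [← ofReal_norm_eq_enorm]
              calc ENNReal.ofReal ‖ft n x‖ ≤ ENNReal.ofReal 1 := ENNReal.ofReal_le_ofReal this
                _ = 1 := ENNReal.ofReal_one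
          _ = ‖∫ a, G a * ee (x * s a) ∂ν‖ₑ := one_mul _

end Pool.Agent.W240.PC
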