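import Pool.Agent.W618.PC.Stms

open Set Topology Filter

namespace Pool.Agent.W240.PC

open Pool.Agent.W618.PC

section Walk

variable {A : Type} (G : Set A) (R : A → A → Prop)

/-- A walk from `a` to `b` inside `G`, of length `n`, through all points of `S`. -/
def Wk (S : Set A) (a b : A) (n : ℕ) : Prop :=
  ∃ w : ℕ → A, w 0 = a ∧ (∀ i, n ≤ i → w i = b) ∧ (∀ i, w i ∈ G) ∧ (∀ i, R (w i) (w (i + 1))) ∧
    ∀ c ∈ S, ∃ i ≤ n, w i = c

variable {G R}

theorem Wk.refl (hR : ∀ a ∈ G, R a a) {a : A} (ha : a ∈ G) (n : ℕ) : Wk G R {a} a a n :=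
  ⟨fun _ => a, rfl, fun _ _ => rfl, fun _ => ha, fun _ => hR a ha,
    fun c hc => ⟨0, Nat.zero_le _, (by simpa using hc.symm)⟩⟩

theorem Wk.mono {S T : Set A} {a b : A} {n m : ℕ} (h : Wk G R S a b n) (hnm : n ≤ m)
    (hT : T ⊆ S) : Wk G R T a b m := by
  obtain ⟨w, h0, h1, h2, h3, h4⟩ := h
  refine ⟨w, h0, fun i hi => h1 i (hnm.trans hi), h2, h3, fun c hc => ?_⟩
  obtain ⟨i, hi, hw⟩ := h4 c (hT hc)
  exact ⟨i, hi.trans hnm, hw⟩

theorem Wk.trans {S T : Set A} {a b c : A} {n m : ℕ} (h : Wk G R S a b n)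
    (h' : Wk G R T b c m) : Wk G R (S ∪ T) a c (n + m) := by
  obtain ⟨w, h0, h1, h2, h3, h4⟩ := h
  obtain ⟨w', h0', h1', h2', h3', h4'⟩ := h'
  refine ⟨fun i => if i ≤ n then w i else w' (i - n), by simp [h0], ?_, ?_, ?_, ?_⟩
  · intro i hi
    by_cases hin : i ≤ n
    · have h1n : i = n := by omega
      have hm : m = 0 := by omega
      subst hm
      subst h1n
      simp only [le_refl, if_true]
      rw [h1 i le_rfl, ← h0', h1' 0 le_rfl]
    · simp only [hin, if_false]
      exact h1' _ (by omega)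
  · intro i
    by_cases hin : i ≤ n
    · simp only [hin, if_true]; exact h2 i
    · simp only [hin, if_false]; exact h2' _
  · intro i
    by_cases hin : i + 1 ≤ n
    · have : i ≤ n := by omega
      simp only [hin, this, if_true]; exact h3 i
    · by_cases hin' : i ≤ n
      · have hi : i = n := by omega
        subst hi
        simp only [hin, le_refl, if_true, if_false]
        have : i + 1 - i = 0 + 1 := by omega
        rw [this, h1 i le_rfl, ← h0']
        exact h3' 0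
      · simp only [hin, hin', if_false]
        have : i + 1 - n = (i - n) + 1 := by omega
        rw [this]
        exact h3' _
  · rintro d (hd | hd)
    · obtain ⟨i, hi, hw⟩ := h4 d hd
      exact ⟨i, by omega, by simp [hi, hw]⟩
    · obtain ⟨i, hi, hw⟩ := h4' d hd
      by_cases hi0 : i = 0
      · subst hi0
        refine ⟨n, by omega, ?_⟩
        simp only [le_refl, if_true]
        rw [h1 n le_rfl, ← h0', hw]
      · refine ⟨n + i, by omega, ?_⟩
        have h5 : ¬ (n + i ≤ n) := by omega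
        have h6 : n + i - n = i := by omega
        simp only [h5, if_false, h6, hw]

theorem Wk.of_refl (hR : ∀ a ∈ G, R a a) {a b : A} (ha : a ∈ G)
    (h : Relation.ReflTransGen (fun x y => x ∈ G ∧ y ∈ G ∧ R x y) a b) :
    ∃ n, Wk G R {b} a b n := by
  induction h with
  | refl => exact ⟨0, Wk.refl hR ha 0⟩
  | @tail b c _ hbc ih =>
    obtain ⟨n, hn⟩ := ih
    have h2 : Wk G R {c} b c 1 := by
      refine ⟨fun i => if i = 0 then b else c, by simp, ?_, ?_, ?_, ?_⟩
      · intro i hi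
        have : i ≠ 0 := by omega
        simp [this]
      · intro i
        by_cases hi : i = 0
        · simp [hi, hbc.1]
        · simp [hi, hbc.2.1]
      · intro i
        by_cases hi : i = 0
        · simp [hi, hbc.2.2]
        · simp [hi, hR c hbc.2.1]
      · intro d hd
        exact ⟨1, le_rfl, by simpa using hd.symm⟩
    exact ⟨n + 1, (hn.trans h2).mono le_rfl (by intro x hx; exact Or.inr hx)⟩

theorem Wk.all (hR : ∀ a ∈ G, R a a)
    (hc : ∀ a ∈ G, ∀ b ∈ G, Relation.ReflTransGen (fun x y => x ∈ G ∧ y ∈ G ∧ R x y) a b)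
    (S : Set A) (hS : S.Finite) (hSG : S ⊆ G) :
    ∀ a ∈ G, ∀ b ∈ G, ∃ n, Wk G R S a b n := by
  induction S, hS using Set.Finite.induction_on with
  | empty =>
    intro a ha b hb
    obtain ⟨n, hn⟩ := Wk.of_refl hR ha (hc a ha b hb)
    exact ⟨n, hn.mono le_rfl (empty_subset _)⟩
  | @insert c S hcS hS ih =>
    intro a ha b hb
    have hcG : c ∈ G := hSG (mem_insert _ _)
    obtain ⟨n, hn⟩ := Wk.of_refl hR ha (hc a ha c hcG)
    obtain ⟨m, hm⟩ := ih ((subset_insert _ _).trans hSG) c hcG b hb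
    refine ⟨n + m, (hn.trans hm).mono le_rfl ?_⟩
    intro x hx
    rcases hx with rfl | hx
    · exact Or.inl rfl
    · exact Or.inr hx

end Walk

section Cover

variable {X : Type} [MetricSpace X] {A : Type}

theorem reach {V : A → Set X} (hVo : ∀ a, IsOpen (V a)) (hcov : ∀ x, ∃ a, x ∈ V a) {C : Set X}
    (hC : IsConnected C) {a b : A} (ha : (V a ∩ C).Nonempty) (hb : (V b ∩ C).Nonempty) :
    Relation.ReflTransGen (fun x y => x ∈ {a | (V a ∩ C).Nonempty} ∧
      y ∈ {a | (V a ∩ C).Nonempty} ∧ (V x ∩ V y).Nonempty) a b := by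
  by_contra hab
  set Q : A → A → Prop := fun x y => x ∈ {a | (V a ∩ C).Nonempty} ∧
      y ∈ {a | (V a ∩ C).Nonempty} ∧ (V x ∩ V y).Nonempty with hQ
  let U1 : Set X := ⋃ c ∈ {c | (V c ∩ C).Nonempty ∧ Relation.ReflTransGen Q a c}, V c
  let U2 : Set X := ⋃ c ∈ {c | (V c ∩ C).Nonempty ∧ ¬ Relation.ReflTransGen Q a c}, V c
  have h1 : IsOpen U1 := isOpen_biUnion fun c _ => hVo c
  have h2 : IsOpen U2 := isOpen_biUnion fun c _ => hVo c
  have h12 : C ⊆ U1 ∪ U2 := by
    intro x hx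
    obtain ⟨c, hc⟩ := hcov x
    by_cases h : Relation.ReflTransGen Q a c
    · left
      exact mem_biUnion (show c ∈ {c | (V c ∩ C).Nonempty ∧ Relation.ReflTransGen Q a c} from
        ⟨⟨x, hc, hx⟩, h⟩) hc
    · right
      exact mem_biUnion (show c ∈ {c | (V c ∩ C).Nonempty ∧ ¬ Relation.ReflTransGen Q a c} from
        ⟨⟨x, hc, hx⟩, h⟩) hc
  have h3 : (C ∩ U1).Nonempty := by
    obtain ⟨x, hx1, hx2⟩ := ha
    exact ⟨x, hx2, mem_biUnion (show a ∈ {c | (V c ∩ C).Nonempty ∧ Relation.ReflTransGen Q a c}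
      from ⟨⟨x, hx1, hx2⟩, Relation.ReflTransGen.refl⟩) hx1⟩
  have h4 : (C ∩ U2).Nonempty := by
    obtain ⟨x, hx1, hx2⟩ := hb
    exact ⟨x, hx2, mem_biUnion (show b ∈ {c | (V c ∩ C).Nonempty ∧ ¬ Relation.ReflTransGen Q a c}
      from ⟨⟨x, hx1, hx2⟩, hab⟩) hx1⟩
  obtain ⟨x, hxC, hx1, hx2⟩ := hC.isPreconnected U1 U2 h1 h2 h12 h3 h4
  simp only [U1, mem_iUnion, mem_ofPred_eq] at hx1
  simp only [U2, mem_iUnion, mem_ofPred_eq] at hx2
  obtain ⟨c, ⟨hc1, hc2⟩, hc3⟩ := hx1
  obtain ⟨d, ⟨hd1, hd2⟩, hd3⟩ := hx2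
  exact hd2 (hc2.tail ⟨hc1, hd1, x, hc3, hd3⟩)

end Cover

theorem hm1 : S_HM1 := by
  intro X _ _ _ _ ε k W hW ε' hε'
  -- the finite cover
  have hloc : ∀ x : X, ∃ U : Set X, U ⊆ Metric.ball x (ε' / 2) ∧ IsOpen U ∧ x ∈ U ∧
      IsConnected U := by
    intro x
    obtain ⟨U, hU1, hU2, hU3, hU4⟩ := locallyConnectedSpace_iff_subsets_isOpen_isConnected.1
      (inferInstance : LocallyConnectedSpace X) x (Metric.ball x (ε' / 2))
      (Metric.ball_mem_nhds x (by linarith))
    exact ⟨U, hU1, hU2, hU3, hU4⟩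
  choose U hU1 hU2 hU3 hU4 using hloc
  obtain ⟨t, ht⟩ := isCompact_univ.elim_nhds_subcover U (fun x _ => (hU2 x).mem_nhds (hU3 x))
  let A : Type := {x // x ∈ t}
  let V : A → Set X := fun a => U a.1
  have hcov : ∀ x, ∃ a : A, x ∈ V a := by
    intro x
    have := ht.2 (mem_univ x)
    simp only [mem_iUnion] at this
    obtain ⟨y, hy, hxy⟩ := this
    exact ⟨⟨y, hy⟩, hxy⟩
  have hVo : ∀ a : A, IsOpen (V a) := fun a => hU2 a.1
  have hVc : ∀ a : A, IsConnected (V a) := fun a => hU4 a.1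
  have hVd : ∀ a : A, ∀ x ∈ V a, ∀ y ∈ V a, dist x y ≤ ε' := by
    intro a x hx y hy
    have h1 := hU1 a.1 hx
    have h2 := hU1 a.1 hy
    rw [Metric.mem_ball] at h1 h2
    have := dist_triangle_right x y a.1
    linarith
  let G : Set X → Set A := fun C => {a | (V a ∩ C).Nonempty}
  let R : A → A → Prop := fun a b => (V a ∩ V b).Nonempty
  have hRr : ∀ a, R a a := fun a => by
    obtain ⟨x, hx⟩ := (hVc a).nonempty
    exact ⟨x, hx, hx⟩
  have hfin : Finite A := inferInstance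
  -- corners
  have hcorner : ∀ i : ℕ, ∃ a : A, (i < k → a ∈ G (W i)) ∧
      (∀ j, j + 1 = i → j < k → a ∈ G (W j)) := by
    intro i
    rcases i with _ | i
    · by_cases hk : 0 < k
      · obtain ⟨x, hx⟩ := (hW.conn 0 hk).nonempty
        obtain ⟨a, ha⟩ := hcov x
        exact ⟨a, fun _ => ⟨x, ha, hx⟩, fun j hj => by omega⟩
      · obtain ⟨a, ha⟩ := hcov (Classical.arbitrary X)
        exact ⟨a, fun h => absurd h hk, fun j hj => by omega⟩
    · by_cases hi : i + 1 < k
      · obtain ⟨x, hx1, hx2⟩ := hW.next i hi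
        obtain ⟨a, ha⟩ := hcov x
        refine ⟨a, fun _ => ⟨x, ha, hx2⟩, fun j hj _ => ?_⟩
        have : j = i := by omega
        subst this
        exact ⟨x, ha, hx1⟩
      · by_cases hi' : i < k
        · obtain ⟨x, hx⟩ := (hW.conn i hi').nonempty
          obtain ⟨a, ha⟩ := hcov x
          refine ⟨a, fun h => absurd h hi, fun j hj _ => ?_⟩
          have : j = i := by omega
          subst this
          exact ⟨x, ha, hx⟩
        · obtain ⟨a, ha⟩ := hcov (Classical.arbitrary X)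
          refine ⟨a, fun h => absurd h hi, fun j hj hjk => ?_⟩
          omega
  choose a ha1 ha2 using hcorner
  have hwalk : ∀ i : ℕ, ∃ n, i < k → Wk (G (W i)) R (G (W i)) (a i) (a (i + 1)) n := by
    intro i
    by_cases hi : i < k
    · obtain ⟨n, hn⟩ := Wk.all (G := G (W i)) (R := R) (fun b _ => hRr b)
        (fun b hb c hc => reach hVo hcov (hW.conn i hi) hb hc) (G (W i)) (toFinite _) Subset.rfl
        (a i) (ha1 i hi) (a (i + 1)) (ha2 (i + 1) i rfl hi)
      exact ⟨n, fun _ => hn⟩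
    · exact ⟨0, fun h => absurd h hi⟩
  choose n hn using hwalk
  let N : ℕ := ∑ i ∈ Finset.range k, n i
  have hN : ∀ i < k, n i ≤ N := fun i hi =>
    Finset.single_le_sum (f := n) (fun _ _ => Nat.zero_le _) (Finset.mem_range.2 hi)
  have hw : ∀ i, ∃ w : ℕ → A, i < k → w 0 = a i ∧ (∀ j, N ≤ j → w j = a (i + 1)) ∧
      (∀ j, w j ∈ G (W i)) ∧ (∀ j, R (w j) (w (j + 1))) ∧ ∀ c ∈ G (W i), ∃ j ≤ N, w j = c := by
    intro i
    by_cases hi : i < k
    · obtain ⟨w, hw⟩ := (hn i hi).mono (hN i hi) Subset.rfl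
      exact ⟨w, fun _ => hw⟩
    · exact ⟨fun _ => a 0, fun h => absurd h hi⟩
  choose w hw using hw
  have hdiv : ∀ i j, j < N + 1 → (i * (N + 1) + j) / (N + 1) = i := by
    intro i j hj
    rw [mul_comm, Nat.mul_add_div (by omega), Nat.div_eq_of_lt hj, add_zero]
  have hmod : ∀ i j, j < N + 1 → (i * (N + 1) + j) % (N + 1) = j := by
    intro i j hj
    rw [mul_comm, Nat.mul_add_mod, Nat.mod_eq_of_lt hj]
  refine ⟨N + 1, fun s => V (w (s / (N + 1)) (s % (N + 1))), Nat.succ_pos _, ?_, ?_⟩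
  · refine ⟨fun _ _ => hVo _, fun _ _ => hVc _, fun _ _ => hVd _, ?_, ?_⟩
    · intro s hs
      have hi : s / (N + 1) < k := (Nat.div_lt_iff_lt_mul (Nat.succ_pos _)).2 (lt_trans (Nat.lt_succ_self s) hs)
      obtain ⟨h0, h1, h2, h3, h4⟩ := hw _ hi
      have hs' := Nat.div_add_mod s (N + 1)
      have hlt := Nat.mod_lt s (Nat.succ_pos N)
      set i := s / (N + 1) with hidef
      set j := s % (N + 1) with hjdef
      by_cases hj : j + 1 < N + 1
      · have e1 : (s + 1) / (N + 1) = i := by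
          rw [show s + 1 = i * (N + 1) + (j + 1) by rw [mul_comm]; omega]
          exact hdiv _ _ hj
        have e2 : (s + 1) % (N + 1) = j + 1 := by
          rw [show s + 1 = i * (N + 1) + (j + 1) by rw [mul_comm]; omega]
          exact hmod _ _ hj
        simp only [e1, e2]
        exact h3 j
      · have hjN : j = N := by omega
        have e0 : s + 1 = (i + 1) * (N + 1) + 0 := by
          rw [Nat.succ_mul, mul_comm]; omega
        have e1 : (s + 1) / (N + 1) = i + 1 := by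
          rw [e0]; exact hdiv _ _ (Nat.succ_pos _)
        have e2 : (s + 1) % (N + 1) = 0 := by
          rw [e0]; exact hmod _ _ (Nat.succ_pos _)
        have hi1 : i + 1 < k := by
          rw [e0, add_zero] at hs
          exact lt_of_mul_lt_mul_right hs (Nat.zero_le _)
        simp only [e1, e2]
        rw [h1 j (by omega), (hw _ hi1).1]
        exact hRr _
    · intro x
      obtain ⟨i, hi, hx⟩ := hW.cover x
      obtain ⟨c, hc⟩ := hcov x
      obtain ⟨h0, h1, h2, h3, h4⟩ := hw i hi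
      obtain ⟨j, hj, hwj⟩ := h4 c ⟨x, hc, hx⟩
      refine ⟨i * (N + 1) + j, ?_, ?_⟩
      · calc i * (N + 1) + j < i * (N + 1) + (N + 1) := by omega
          _ = (i + 1) * (N + 1) := by ring
          _ ≤ k * (N + 1) := Nat.mul_le_mul_right _ hi
      · show x ∈ V (w ((i * (N + 1) + j) / (N + 1)) ((i * (N + 1) + j) % (N + 1)))
        rw [hdiv i j (by omega), hmod i j (by omega), hwj]
        exact hc
  · intro i hi j hj
    show (V (w ((i * (N + 1) + j) / (N + 1)) ((i * (N + 1) + j) % (N + 1))) ∩ W i).Nonempty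
    rw [hdiv i j hj, hmod i j hj]
    exact (hw i hi).2.2.1 j

end Pool.Agent.W240.PC
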